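import Pool.Agent.N500.CW.Even

/-!
# The flag complex inequality with Coxeter edge weights: Morse and coloured classes

The vertices of the finite graph `G` are the vertices of a flag complex, its faces are the cliques of `G`, and
`HSph (2 m) G` says that it is a homology manifold with the homology of the `(2 m - 1)`-sphere, with real
coefficients. `w` gives the edge weights, `N` the orders of the groups `W_σ`, described by their properties
(`Orders G w N`): `N ∅ = 1`, `N {v} = 2`, `N {u, v} = 2 w {u, v}` with `w {u, v} ≥ 2`, multiplicativity, and for the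
irreducible `W_σ` of rank at least `3` the Charney-Davis inequality of their Coxeter complexes. `omegaN G N` is
`∑ (-1)^|σ| / N σ`, and `chiW G = ∑ (-1/2)^|σ|` is its value if all weights are `2`.

The difference `(-1)^m (omegaN G N - chiW G)` is a combination with nonnegative coefficients of the Charney-Davis
quantities of the links of the nonempty faces `T`. We use that only those faces `T` count for which all the
components of the graph on `T` formed by the edges of weight at least `3` have an even number of vertices
(`EvenParts w T`).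
-/

set_option autoImplicit false

namespace Pool.Agent.Results.MP_375bfa_co.MorseAndColoured

open Pool.Agent.W907.SG Pool.Agent.W907.SM Pool.Agent.R703.MO Pool.Agent.R703.CW Pool.Agent.R782.Bal
open Pool.Agent.TH652.Above (HSph chi_sign)
open Pool.Agent.TH709.GG (Cls)
open Pool.Agent.N500.CW

/-- For each degree `i > n / 2` there is a system of slopes of `G` on a nonempty finite set such that for all points
`x` and all cliques `S` of flat directions at `x` with `|S| ≤ i` the flag complex on the ascending directions at `x`
adjacent to all the elements of `S` has no reduced real homology in the degree `i - |S| - 1`. -/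
def HasSlopes (n : ℕ) {V : Type} [Fintype V] [LinearOrder V] (G : SimpleGraph V) : Prop :=
  ∀ i : ℕ, n < 2 * i → ∃ (X : Type) (_ : Finite X) (_ : Nonempty X) (D : Slope G X), ∀ (x : X) (S : Finset V),
    G.IsClique (S : Set V) → (∀ s ∈ S, D.dir s x = 0) → ∀ j, i = j + S.card → HomZero G (D.Asc S x) j

/-- The classes of flag complexes of dimension `n - 1`, `n` even, for which the inequality of Charney and Davis is
used: `G` has a system of slopes as above, or is in the class `MQ (n / 2 + 1)` (which contains the barycentric
subdivisions of all triangulated spheres and is closed under Morse rules, vertex splittings, relative subdivisions,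
gluings, joins, ...), or is in the class `Cls n` (closed under links, joins, sums, inverse edge contractions). -/
def Good (n : ℕ) {V : Type} [Fintype V] [LinearOrder V] (G : SimpleGraph V) : Prop :=
  HasSlopes n G ∨ MQ (n / 2 + 1) G ∨ Cls n V G Finset.univ

/-- the inequality of Charney and Davis for these classes -/
theorem cd {m : ℕ} {V : Type} [Fintype V] [LinearOrder V] {G : SimpleGraph V} (hS : HSph (2 * m) G)
    (h : Good (2 * m) G) : 0 ≤ (-1 : ℚ) ^ m * chiW G := by
  rcases h with h | h | h
  · exact chi_sign G fun i hi => singer_slopes hS h i (by omega)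
  · rw [show 2 * m / 2 = m by omega] at h
    exact charney_davis_MQ hS h
  · rw [chiW_eq]
    exact cd_of_cls h

/-- The flag complex of `G` is isomorphic to a subcomplex of a simplicial complex `K` of dimension at most `n` which
is a homology sphere (and homology manifold) over the field with two elements. This holds if the flag complex of `G`
itself is such a homology sphere, of dimension `n - 1`. -/
def Mod2 {V : Type} (n : ℕ) (G : SimpleGraph V) : Prop :=
  ∃ (N n' : ℕ) (K : Finset (Finset (Fin N))) (f : V ↪ Fin N), n' ≤ n + 1 ∧ Pool.Agent.Y131.KS.HSph K n' ∧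
    ∀ T : Finset V, G.IsClique (T : Set V) → T.map f ∈ K

/-- The number of the colours `c` such that `T` has an odd number of vertices of the colour `c` (`mc σ` is the colour
of the vertices of `σ`). -/
noncomputable def oddColours {N k : ℕ} {X : Finset (Finset (Fin N))} {col : Fin N → Fin k}
    (T : Finset (MF X col)) : ℕ :=
  ∑ c : Fin k, (T.filter (fun σ => mc σ = c)).card % 2

theorem odd_eq {N k : ℕ} {X : Finset (Finset (Fin N))} {col : Fin N → Fin k} (T : Finset (MF X col)) :
    oddColours T = ∑ c : Fin k, tcol T c % 2 :=
  Finset.sum_congr rfl fun c _ => by rw [tcol]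

/-- The links of the nonempty faces `T` with even parts and of codimension at least `4` in the flag complex of `G`
(of dimension `2 m - 1`) have the property `P`. -/
def LinksOf (m : ℕ) {V : Type} [Fintype V] [LinearOrder V] (G : SimpleGraph V) (w : Finset V → ℕ)
    (P : Finset V → Prop) : Prop :=
  ∀ T : Finset V, G.IsClique (T : Set V) → T.Nonempty → EvenParts w T → T.card + 4 ≤ 2 * m → P T

/-- the link of `T` is in the classes -/
def GoodLink (n : ℕ) {V : Type} [Fintype V] [LinearOrder V] (G : SimpleGraph V) (T : Finset V) : Prop :=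
  ∃ _ : Fintype ↥{v : V | ∀ u ∈ T, G.Adj v u}, Good (n - T.card) (G.induce {v : V | ∀ u ∈ T, G.Adj v u})

theorem cd_goodLink {m l : ℕ} {V : Type} [Fintype V] [LinearOrder V] {G : SimpleGraph V} (hS : HSph (2 * m) G)
    {T : Finset V} (hT : G.IsClique (T : Set V)) (hl : T.card + 2 * l = 2 * m) (h : GoodLink (2 * m) G T) :
    0 ≤ (-1 : ℚ) ^ l * Pool.Agent.W497.FS.lam G (Pool.Agent.W497.FS.lkF G Finset.univ T) := by
  obtain ⟨inst, h3⟩ := h
  letI inst' : Fintype ↥(Pool.Agent.W907.SM.lk G T) := inst
  have e : 2 * m - T.card = 2 * l := by omega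
  have h2 : HSph (2 * m - T.card) (G.induce {v : V | ∀ u ∈ T, G.Adj v u}) := hsph_link hS T hT
  rw [e] at h2 h3
  have h4 := cd h2 h3
  have h5 : chiW (G.induce {v : V | ∀ u ∈ T, G.Adj v u}) =
      Pool.Agent.W497.FS.lam G (Pool.Agent.W497.FS.lkF G Finset.univ T) := chiW_link T
  rw [h5] at h4
  exact h4

/-- **Result.** Let the flag complex of `G` be a real homology `(2 m - 1)`-sphere with Coxeter edge weights `w` and
orders `N`.

(1) If the links of the nonempty faces with even parts and of codimension at least `4` are in the classes `Good`,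
then `(-1)^m omegaN G N ≥ (-1)^m chiW G`; if moreover `G` itself is in these classes then `(-1)^m omegaN G N ≥ 0`.

(2) Let `G = cs X col` be the colourwise barycentric subdivision of a simplicial complex `X` with vertices coloured
by `k` colours such that the simplices with all vertices of the colour `c` have at most `2 a c` vertices, and let it
be contained in a homology sphere over `F_2` of dimension at most `2 m`. Suppose that each nonempty face `T` with
even parts and of codimension at least `4` has at most `2 m + 2 - 2 ∑ a c` colours of odd multiplicity or a link in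
the classes `Good`. Then `(-1)^m omegaN G N ≥ (-1)^m chiW G`, and if `∑ a c ≤ m + 1` then `(-1)^m omegaN G N ≥ 0`.

(3) In particular `(-1)^m omegaN G N ≥ 0` for all weights on `G = cs X col` if `∑ a c ≤ m` and there are at most
three colours, and if `∑ a c ≤ m + 1` for all weights for which the edges of weight at least `3` have both ends of
the same colour (so for all weights if there is only one colour). -/
theorem result :
    (∀ (m : ℕ) (V : Type) [Fintype V] [LinearOrder V] (G : SimpleGraph V) (w : Finset V → ℕ) (N : Finset V → ℚ),
      HSph (2 * m) G → Orders G w N → LinksOf m G w (GoodLink (2 * m) G) →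
      (-1) ^ m * chiW G ≤ (-1) ^ m * omegaN G N ∧ (Good (2 * m) G → 0 ≤ (-1) ^ m * omegaN G N)) ∧
    (∀ (m N k : ℕ) (X : Finset (Finset (Fin N))) (col : Fin N → Fin k) (a : Fin k → ℕ),
      (∀ σ ∈ X, ∀ τ : Finset (Fin N), τ ⊆ σ → τ ∈ X) →
      (∀ σ ∈ X, ∀ c, (∀ v ∈ σ, col v = c) → σ.card ≤ 2 * a c) →
      ∀ [Fintype (MF X col)] [LinearOrder (MF X col)], HSph (2 * m) (cs X col) → Mod2 (2 * m) (cs X col) →
      ∀ (w : Finset (MF X col) → ℕ) (M : Finset (MF X col) → ℚ), Orders (cs X col) w M →
      (LinksOf m (cs X col) w (fun T => 2 * ∑ c, a c + oddColours T ≤ 2 * m + 2 ∨ GoodLink (2 * m) (cs X col) T) →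
        (-1) ^ m * chiW (cs X col) ≤ (-1) ^ m * omegaN (cs X col) M ∧
        (∑ c, a c ≤ m + 1 → 0 ≤ (-1) ^ m * omegaN (cs X col) M)) ∧
      (∑ c, a c ≤ m → k ≤ 3 → 0 ≤ (-1) ^ m * omegaN (cs X col) M) ∧
      (∑ c, a c ≤ m + 1 → (∀ σ τ : MF X col, (cs X col).Adj σ τ → mc σ ≠ mc τ → w {σ, τ} = 2) →
        0 ≤ (-1) ^ m * omegaN (cs X col) M)) := by
  classical
  refine ⟨?_, ?_⟩
  · intro m V _ _ G w N hS hN hL
    have h1 : (-1) ^ m * chiW G ≤ (-1) ^ m * omegaN G N :=
      ge_ra hS w N hN fun T hT hne hE l hl hl2 => cd_goodLink hS hT hl (hL T hT hne hE (by omega))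
    exact ⟨h1, fun h => (cd hS h).trans h1⟩
  · intro m N k X col a hX ha _ _ hS hS2 w M hN
    obtain ⟨N'', n', K, f, hn, hK, hf⟩ := hS2
    have h1 : LinksOf m (cs X col) w
        (fun T => 2 * ∑ c, a c + oddColours T ≤ 2 * m + 2 ∨ GoodLink (2 * m) (cs X col) T) →
        (-1) ^ m * chiW (cs X col) ≤ (-1) ^ m * omegaN (cs X col) M := by
      intro hL
      refine ge_ra hS w M hN fun T hT hne hE l hl hl2 => ?_
      rcases hL T hT hne hE (by omega) with h | h
      · rw [odd_eq] at h
        exact cd_link3 hX a ha hS K f hn hK hf T hT (by omega) h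
      · exact cd_goodLink hS hT hl h
    have h2 : ∑ c, a c ≤ m + 1 → 0 ≤ (-1 : ℚ) ^ m * chiW (cs X col) :=
      ra_cs hX a ha hS K f hn hK hf
    have h3 : LinksOf m (cs X col) w
        (fun T => 2 * ∑ c, a c + oddColours T ≤ 2 * m + 2 ∨ GoodLink (2 * m) (cs X col) T) →
        (∑ c, a c ≤ m + 1 → 0 ≤ (-1) ^ m * omegaN (cs X col) M) := fun hL hs => (h2 hs).trans (h1 hL)
    refine ⟨fun hL => ⟨h1 hL, h3 hL⟩, fun hs hk => h3 (fun T hT hne hE hc => Or.inl ?_) (by omega),
      fun hs hmono => h3 (fun T hT hne hE hc => Or.inl ?_) hs⟩
    · have p1 := odd_parity T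
      have p2 := odd_le T
      have p3 := hE.even
      rw [← odd_eq] at p1 p2
      rw [Nat.even_iff] at p3
      omega
    · have p1 : oddColours T = 0 := by
        rw [odd_eq]
        refine Finset.sum_eq_zero fun c _ => ?_
        rw [tcol, ← Nat.even_iff]
        refine hE.mono_color mc (fun x hx y hy hxy => ?_) c
        exact hmono x y (hT hx hy fun h => hxy (by rw [h])) hxy
      omega

end Pool.Agent.Results.MP_375bfa_co.MorseAndColoured
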